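import Pool.Agent.Results.MP_92892c_nt.FullClassTwoPartX49
import Pool.Agent.Run7.h268.FN.Cong

/-!
# The 2-part of the leading-term formula for the quadratic twists of `X_0(49)` by numbers with a fixed
# number of prime factors, all of them from an arbitrary set of primes of positive density

`E_D` is the quadratic twist of `X_0(49) : y² + x y = x³ - x² - 2 x - 1` by a squarefree number `D`, all
of whose prime factors are `1` modulo `4`, and `z = #E_D(ℚ)_tors² L(E_D, 1) / (Ω ∏ c_p)`. The 2-part of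
the formula, with `z` a unit at two, is: `L(E_D, 1) ≠ 0`, `E_D(ℚ)` is finite, `Ш(E_D/ℚ)[2^∞] = 0`, and
`z`, `1 / z` are integral at the primes above two. The starting files have its exact proportion
`0.4194...` among all the `D` of the class; almost all of these have about `(1/2) log log D` prime
factors.

Here the number of the prime factors is fixed, and they are taken from an arbitrary set `S` of primes.
Let `P n = ∏_{i < (n+1)/2} (1 - 2^{-(2i+1)})`, the proportion of the invertible matrices among the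
symmetric `n` times `n` matrices over the field with two elements: `1, 1/2, 1/2, 7/16, 7/16, 217/512, …`.
* Let `l ≥ 1`, and suppose that `S` contains a positive proportion of the primes `1` modulo `4` up to
  `Y` which are inert in `ℚ(√-7)`, and (if `k > 0`) also of those which split, for all large `Y`. The
  number of the `D ≤ X` with all prime factors in `S`, `k` split ones and `l` inert ones has the order of
  magnitude `X (log log X)^(k+l-1) / log X`, and the 2-part of the formula holds with `z` a unit for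
  exactly the proportion `P k`.
* If there are no inert prime factors, `b` split ones modulo which `-7` is a fourth power and `r`
  modulo which it is not, then the proportion is `P (b+r-1)` for odd `r`, `P (b+r-2)` for even `r > 0`,
  and zero for `r = 0`.
The conditions on `S` in the first part hold, for instance, for each residue class.

The proof. For one `D` the 2-part of the formula is equivalent to the nonsingularity of a matrix over
the field with two elements (starting files). For fixed numbers of prime factors from `S` almost all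
`D` have only large prime factors; the large sieve for the quadratic symbols gives the
equidistribution in boxes with a saving of a power of the logarithm, for arbitrary subsets of the
primes (helper268; the method is that of the starting file `MP_ae0bd0_nt/FixedNumberCubicFields` for
cubic symbols). The matrix is a random symmetric matrix in the first part; in the second part
it is a random symmetric matrix with given row sums.
-/

set_option autoImplicit false

open Filter Topology

namespace Pool.Agent.Results.MP_92892c_nt.FixedNumberTwoPartX49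

open Pool.Agent.Results.MP_4a9ea6_nt.TwoPartTwistsX49 (E TwoPart)
open Pool.Agent.Results.MP_92892c_nt.FullClassTwoPartX49 (RankZeroShaTwo FormulaModTwo)

/-- the prime `p` splits in `ℚ(√-7)` -/
def Splits (p : ℕ) : Prop := p % 7 = 1 ∨ p % 7 = 2 ∨ p % 7 = 4

/-- `-7` is a fourth power modulo `p` -/
def Fourth (p : ℕ) : Prop := ∃ y : ZMod p, y ^ 4 = -7

/-- the number of the prime factors of `D` with the property `P` -/
noncomputable def number (P : ℕ → Prop) (D : ℕ) : ℕ := Nat.card {p : ℕ // p.Prime ∧ p ∣ D ∧ P p}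

/-- `D` is squarefree, and all its prime factors are `1` modulo `4` and in `S` -/
def InClass (S : Set ℕ) (D : ℕ) : Prop :=
  Squarefree D ∧ ∀ p : ℕ, p.Prime → p ∣ D → p % 4 = 1 ∧ p ∈ S

/-- `D` is in the class, `k` of its prime factors split in `ℚ(√-7)` and `l` are inert -/
def Family (S : Set ℕ) (k l D : ℕ) : Prop :=
  InClass S D ∧ number Splits D = k ∧ number (fun p => ¬ Splits p) D = l

/-- `D` is in the class, its prime factors split in `ℚ(√-7)`, and `-7` is a fourth power modulo `b` of
them, and not a fourth power modulo `r` of them -/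
def SplitFamily (S : Set ℕ) (b r D : ℕ) : Prop :=
  InClass S D ∧ number (fun p => ¬ Splits p) D = 0 ∧ number Fourth D = b ∧
    number (fun p => ¬ Fourth p) D = r

/-- at least a positive proportion of the primes up to `Y` is `1` modulo `4`, in `S`, and has the
property `P`, for all large `Y` -/
def Dense (S : Set ℕ) (P : ℕ → Prop) : Prop := ∃ (δ : ℝ) (Y₀ : ℕ), 0 < δ ∧ ∀ Y : ℕ, Y₀ ≤ Y →
  δ * (Y / Real.log Y) ≤ (Nat.card {p : ℕ // p ≤ Y ∧ p.Prime ∧ p % 4 = 1 ∧ p ∈ S ∧ P p} : ℝ)

/-- the number of the `D` with `1 ≤ D ≤ X` and `Q D` -/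
noncomputable def count (Q : ℕ → Prop) (X : ℕ) : ℕ := Nat.card {D : ℕ // 1 ≤ D ∧ D ≤ X ∧ Q D}

/-- `F` has the order of magnitude `X (log log X)^(n-1) / log X`, and the 2-part of the formula holds
for exactly the proportion `a` of the `D` in `F` -/
def Law (F : ℕ → Prop) (n : ℕ) (a : ℝ) : Prop :=
  (∃ (c C : ℝ) (X₀ : ℕ), 0 < c ∧ 0 < C ∧ ∀ X : ℕ, X₀ ≤ X →
    c * (X * Real.log (Real.log X) ^ (n - 1) / Real.log X) ≤ (count F X : ℝ) ∧
    (count F X : ℝ) ≤ C * (X * Real.log (Real.log X) ^ (n - 1) / Real.log X)) ∧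
  Tendsto (fun X : ℕ => (count (fun D => F D ∧ TwoPart D) X : ℝ) / (count F X : ℝ)) atTop (𝓝 a)

/-- `P n = ∏_{i < (n+1)/2} (1 - 2^{-(2i+1)})` -/
noncomputable def P (n : ℕ) : ℝ :=
  ∏ i ∈ Finset.range ((n + 1) / 2), (1 - (1 / 2 : ℝ) ^ (2 * i + 1))

section proof

open Run7.h268.FN
open Pool.Agent.V11291.FK (PG Dn)
open Pool.Agent.Y698.SG (n4)

/-- the marked primes -/
def mr (p : ℕ) : Prop := Pool.Agent.R413.SQ.mk p = 1

theorem mr_iff (p : ℕ) : mr p ↔ Splits p := by
  unfold mr Pool.Agent.R413.SQ.mk Splits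
  by_cases h : p % 7 = 1 ∨ p % 7 = 2 ∨ p % 7 = 4
  · rw [if_pos h]
    exact ⟨fun _ => h, fun _ => rfl⟩
  · rw [if_neg h]
    exact ⟨fun h1 => absurd h1 zero_ne_one, fun h1 => absurd h1 h⟩

open Classical in
/-- the kinds of the primes for the first part -/
noncomputable def c1 (p : ℕ) : ℕ := if Splits p then 1 else 0

open Classical in
/-- the kinds of the primes for the second part -/
noncomputable def c2 (p : ℕ) : ℕ := if Splits p then (if Fourth p then 1 else 2) else 0

theorem c1_iff (p : ℕ) : (c1 p = 1 ↔ Splits p) ∧ (c1 p = 0 ↔ ¬ Splits p) := by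
  unfold c1
  by_cases h : Splits p
  · simp [h]
  · simp [h]

theorem c2_iff (p : ℕ) : (c2 p = 1 ↔ Splits p ∧ Fourth p) ∧ (c2 p = 2 ↔ Splits p ∧ ¬ Fourth p) ∧
    (c2 p = 0 ↔ ¬ Splits p) := by
  unfold c2
  by_cases h : Splits p
  · by_cases h2 : Fourth p
    · simp [h, h2]
    · simp [h, h2]
  · simp [h]

theorem adm1 (S : Set ℕ) : Adm (AS S) c1 mr (fun r => r = 1) where
  prime _ h := h.1
  odd p h := by
    rintro rfl
    exact absurd h.2.1 (by norm_num)
  four _ h _ := h.2.1
  mark p _ := (mr_iff p).trans (c1_iff p).1.symm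

theorem adm2 (S : Set ℕ) : Adm (AS S) c2 mr (fun r => r ≠ 0) where
  prime _ h := h.1
  odd p h := by
    rintro rfl
    exact absurd h.2.1 (by norm_num)
  four _ h _ := h.2.1
  mark p _ := by
    rw [mr_iff, Ne, (c2_iff p).2.2, not_not]

theorem gd_eq (Q : Finset ℕ) : Pool.Agent.R413.SQ.Gd n4 Q ↔ GdM mr n4 Q := by
  have e : ∀ x : ℕ → ZMod 2, Pool.Agent.R413.SQ.cu x = cuM mr x := by
    intro x
    funext q
    unfold Pool.Agent.R413.SQ.cu cuM mr
    by_cases h : Pool.Agent.R413.SQ.mk q = 1
    · rw [if_pos h, if_pos h]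
    · rw [if_neg h, if_neg h]
  unfold Pool.Agent.R413.SQ.Gd GdM Pool.Agent.R413.SQ.Sol SolM
  simp only [e]
  exact Iff.rfl

theorem two_gdM {S : Set ℕ} {D : ℕ} (h : InClass S D) : TwoPart D ↔ GdM mr n4 D.primeFactors := by
  rw [← gd_eq]
  refine Pool.Agent.Results.MP_92892c_nt.FullClassTwoPartX49.two_gd ⟨h.1, fun p hp => ?_⟩
  exact (h.2 p (Nat.prime_of_mem_primeFactors hp) (Nat.dvd_of_mem_primeFactors hp)).1

theorem class_iff {S : Set ℕ} {D : ℕ} : InClass S D ↔ Squarefree D ∧ ∀ p ∈ D.primeFactors, AS S p := by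
  constructor
  · rintro ⟨h1, h2⟩
    exact ⟨h1, fun p hp => ⟨Nat.prime_of_mem_primeFactors hp,
      h2 p (Nat.prime_of_mem_primeFactors hp) (Nat.dvd_of_mem_primeFactors hp)⟩⟩
  · rintro ⟨h1, h2⟩
    exact ⟨h1, fun p hp hd => (h2 p (Nat.mem_primeFactors.2 ⟨hp, hd, h1.ne_zero⟩)).2⟩

theorem fam1 {S : Set ℕ} {k l D : ℕ} : Family S k l D ↔ FamN (AS S) c1 (ty k l 1 0) D := by
  rw [famN_iff one_ne_zero]
  unfold Family number
  rw [class_iff, and_assoc]
  refine and_congr_right fun h1 => and_congr_right fun _ => ?_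
  simp only [(c1_iff _).1, (c1_iff _).2]
  constructor
  · rintro ⟨h2, h3⟩
    exact ⟨fun p _ => em _, h2, h3⟩
  · rintro ⟨-, h2, h3⟩
    exact ⟨h2, h3⟩

theorem fam2 {S : Set ℕ} {b r D : ℕ} : SplitFamily S b r D ↔ FamN (AS S) c2 (ty b r 1 2) D := by
  rw [famN_iff (by norm_num : 1 ≠ 2)]
  unfold SplitFamily number
  rw [class_iff, and_assoc]
  refine and_congr_right fun h1 => and_congr_right fun _ => ?_
  simp only [(c2_iff _).1, (c2_iff _).2.1]
  rw [card_pf_zero h1.ne_zero]
  have e3 : (∀ p ∈ D.primeFactors, ¬ ¬ Splits p) ↔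
      ∀ p ∈ D.primeFactors, Splits p ∧ Fourth p ∨ Splits p ∧ ¬ Fourth p := by
    refine forall₂_congr fun p _ => ?_
    tauto
  rw [e3]
  refine and_congr_right fun h2 => ?_
  have e4 : ∀ p ∈ D.primeFactors, Splits p := fun p hp => by
    rcases h2 p hp with h | h
    · exact h.1
    · exact h.1
  rw [card_pf_congr h1.ne_zero (P := Fourth) (Q := fun p => Splits p ∧ Fourth p)
      fun p hp => ⟨fun h => ⟨e4 p hp, h⟩, fun h => h.2⟩,
    card_pf_congr h1.ne_zero (P := fun p => ¬ Fourth p) (Q := fun p => Splits p ∧ ¬ Fourth p)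
      fun p hp => ⟨fun h => ⟨e4 p hp, h⟩, fun h => h.2⟩]

theorem law_of {S : Set ℕ} {F : ℕ → Prop} {cl : ℕ → ℕ} {M : ℕ → Prop} {a b u v : ℕ} {t : ℝ}
    (hA : Adm (AS S) cl mr M) (h : ∀ D, F D ↔ FamN (AS S) cl (ty a b u v) D)
    (hF : ∀ D, F D → InClass S D) (hab : 1 ≤ a + b) (h0 : 0 ≤ t) (h1 : t ≤ 1)
    (ht : @Prob (Fin a ⊕ Fin b) _ (ordS a b) (AS S) cl M n4 (ty a b u v) t)
    (hD : ∀ i, Dn (PG (AS S) cl (ty a b u v) i)) : Law F (a + b) t := by
  have e : F = FamN (AS S) cl (ty a b u v) := funext fun D => propext (h D)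
  have e2 : (fun D => F D ∧ TwoPart D) =
      fun D => FamN (AS S) cl (ty a b u v) D ∧ GdM mr n4 D.primeFactors := by
    funext D
    rw [← e]
    exact propext (and_congr_right fun hD => two_gdM (hF D hD))
  unfold Law
  rw [e2, e]
  exact law_ty hA hab h0 h1 ht hD

theorem dn_of_dense {S : Set ℕ} {Q : ℕ → Prop} {R : ℕ → Prop} (h : Dense S Q)
    (hR : ∀ p, AS S p → Q p → R p) : Dn R := by
  obtain ⟨δ, Y₀, hδ, h⟩ := h
  exact dn_of hδ h fun p hp => hR p ⟨hp.1, hp.2.1, hp.2.2.1⟩ hp.2.2.2

theorem law_mixed (S : Set ℕ) (k l : ℕ) (hl : 1 ≤ l) (hk : 0 < k → Dense S Splits)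
    (hi : Dense S fun p => ¬ Splits p) : Law (Family S k l) (k + l) (P k) := by
  let _ : LinearOrder (Fin k ⊕ Fin l) := ordS k l
  refine law_of (adm1 S) (fun D => fam1) (fun D hD => hD.1) (by omega) (sp_nonneg k)
    (sp_le_one k) ?_ ?_
  · intro p _
    have h1 := card_JM (fun r => r = 1) k l 1 0 rfl zero_ne_one
    have h2 := PrT_unmarked Pool.Agent.Y839.CQ.t_SYM (JM (fun r => r = 1) (ty k l 1 0))
      ⟨Sum.inr ⟨0, by omega⟩, fun h => by
        unfold JM at h
        simp only [Finset.mem_filter] at h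
        exact absurd h.2 zero_ne_one⟩ (fun i => n4 (p i))
    rw [h1] at h2
    exact h2
  · rintro (i | i)
    · refine dn_of_dense (hk (by have := i.2; omega)) fun p hp hs => ⟨hp, ?_⟩
      exact (c1_iff p).1.2 hs
    · refine dn_of_dense hi fun p hp hs => ⟨hp, ?_⟩
      exact (c1_iff p).2.2 hs

theorem n4_one {p : ℕ} (h : ¬ Fourth p) : n4 p = 1 := by
  unfold Pool.Agent.Y698.SG.n4
  exact if_neg h

theorem n4_zero {p : ℕ} (h : Fourth p) : n4 p = 0 := by
  unfold Pool.Agent.Y698.SG.n4
  exact if_pos h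

theorem law_split (S : Set ℕ) (b r : ℕ) (hbr : 1 ≤ b + r)
    (hb : 0 < b → Dense S fun p => Splits p ∧ Fourth p)
    (hr : 0 < r → Dense S fun p => Splits p ∧ ¬ Fourth p) :
    Law (SplitFamily S b r) (b + r)
      (if r = 0 then 0 else if Odd r then P (b + r - 1) else P (b + r - 2)) := by
  have h01 := prp_mem b r
  refine law_of (adm2 S) (fun D => fam2) (fun D hD => hD.1) hbr h01.1 h01.2 ?_ ?_
  · exact prob_all n4 one_ne_zero two_ne_zero hbr
      (fun p _ h => n4_zero ((c2_iff p).1.1 h).2) fun p _ h => n4_one ((c2_iff p).2.1.1 h).2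
  · rintro (i | i)
    · refine dn_of_dense (hb (by have := i.2; omega)) fun p hp hs => ⟨hp, ?_⟩
      exact (c2_iff p).1.2 hs
    · refine dn_of_dense (hr (by have := i.2; omega)) fun p hp hs => ⟨hp, ?_⟩
      exact (c2_iff p).2.1.2 hs

theorem dense_class {q c : ℕ} (hq : Nat.Coprime q 28) (hc : Nat.Coprime c q) (Q : ℕ → Prop) (r : ℕ)
    (hr : Nat.Coprime r 28) (hr28 : r < 28) (h4 : r % 4 = 1) (hQ : ∀ p, p % 7 = r % 7 → Q p) :
    Dense {p | p % q = c % q} Q := by
  have hq0 : 1 ≤ q := by
    rcases Nat.eq_zero_or_pos q with h | h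
    · subst h
      exact absurd hq (by decide)
    · exact h
  have h := Run7.h268.FN.dn_class (q := q) (c := c) (m := 28) (r := r) (by norm_num) hq hq0 hc hr hr28
  have h2 : Pool.Agent.V11291.FK.Dn fun p =>
      p.Prime ∧ p % 4 = 1 ∧ p ∈ {p | p % q = c % q} ∧ Q p := by
    obtain ⟨δ, Y₀, hδ, h⟩ := h
    refine ⟨δ, Y₀, hδ, fun Y hY => (h Y hY).trans ?_⟩
    refine Nat.cast_le.2 (Finset.card_le_card fun p hp => ?_)
    simp only [Finset.mem_filter] at hp ⊢
    obtain ⟨h0, h1, h2, h3⟩ := hp
    refine ⟨h0, h1, ?_, h2, hQ p ?_⟩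
    · omega
    · omega
  exact Run7.h268.FN.card_of_dn h2

end proof

theorem card_symm_matrices (n : ℕ) :
    (Nat.card {M : Matrix (Fin n) (Fin n) (ZMod 2) // M.IsSymm ∧ M.det ≠ 0} : ℝ) =
      P n * Nat.card {M : Matrix (Fin n) (Fin n) (ZMod 2) // M.IsSymm} := by
  rw [Pool.Agent.Y839.CQ.t_SYM n, Pool.Agent.Y219.CQ.card_symm]
  push_cast
  exact mul_comm _ _

/-- **The 2-part of the formula for the twists of `X_0(49)` by the numbers with a fixed number of prime
factors from a set of positive density.** -/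
theorem result :
    -- the numbers `P n`
    (∀ n : ℕ, (Nat.card {M : Matrix (Fin n) (Fin n) (ZMod 2) // M.IsSymm ∧ M.det ≠ 0} : ℝ) =
      P n * Nat.card {M : Matrix (Fin n) (Fin n) (ZMod 2) // M.IsSymm}) ∧
    -- a single number
    (∀ (S : Set ℕ) (D : ℕ), InClass S D → FormulaModTwo D ∧ (TwoPart D ↔ RankZeroShaTwo D)) ∧
    -- at least one inert prime factor
    (∀ (S : Set ℕ) (k l : ℕ), 1 ≤ l → (0 < k → Dense S Splits) → Dense S (fun p => ¬ Splits p) →
      Law (Family S k l) (k + l) (P k)) ∧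
    -- no inert prime factor
    (∀ (S : Set ℕ) (b r : ℕ), 1 ≤ b + r → (0 < b → Dense S fun p => Splits p ∧ Fourth p) →
      (0 < r → Dense S fun p => Splits p ∧ ¬ Fourth p) →
      Law (SplitFamily S b r) (b + r)
        (if r = 0 then 0 else if Odd r then P (b + r - 1) else P (b + r - 2))) ∧
    -- the residue classes satisfy the conditions of the first case
    (∀ q c : ℕ, Nat.Coprime q 28 → Nat.Coprime c q →
      Dense {p | p % q = c % q} Splits ∧ Dense {p | p % q = c % q} fun p => ¬ Splits p) := by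
  refine ⟨card_symm_matrices, fun S D h => ?_, law_mixed, law_split, fun q c hq hc => ⟨?_, ?_⟩⟩
  · have hF : Pool.Agent.Results.MP_92892c_nt.FullClassTwoPartX49.Family D :=
      ⟨h.1, fun p hp => (h.2 p (Nat.prime_of_mem_primeFactors hp)
        (Nat.dvd_of_mem_primeFactors hp)).1⟩
    exact ⟨Pool.Agent.Results.MP_92892c_nt.FullClassTwoPartX49.modTwo hF,
      Pool.Agent.Results.MP_92892c_nt.FullClassTwoPartX49.two_sel hF⟩
  · refine dense_class hq hc _ 1 (by norm_num) (by norm_num) (by norm_num) fun p hp => ?_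
    exact Or.inl (by omega)
  · refine dense_class hq hc _ 5 (by norm_num) (by norm_num) (by norm_num) fun p hp => ?_
    unfold Splits
    omega

end Pool.Agent.Results.MP_92892c_nt.FixedNumberTwoPartX49
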