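import Pool.Agent.Run7.h555.Q4.Z5
import Pool.Agent.Run7.h26.QT.Prs
import Pool.Agent.Run7.h26.QT.KEY
import Pool.Agent.Run7.h26.QT.GDM
import Pool.Agent.Run7.h26.QT.BX6
import Pool.Agent.Run7.h26.QT.BAD6
import Pool.Agent.R413.SM.Law

/-!
# The 2-part of the leading-term formula of Birch and Swinnerton-Dyer for `y² = x³ + (u² + v²) x`:
# the joint law

Let `N = u² + v²` with `u`, `v` odd integers and `N` squarefree (the class), `C_N : y² = x³ + N x`, and
let `z_N = #C_N(ℚ)_tors² L(C_N, 1) / (Ω ∏ c_p)`, which is zero or the order of `Ш(C_N/ℚ)` according to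
the conjecture. With no hypothesis on the rank or on `Ш`:
* `L(C_N, s)` is entire, the equation of `C_N` is minimal, the order of the torsion subgroup is twice an
  odd number, and `∏ c_p = 2 ^ ω(N)`;
* `z_N` is an algebraic number which is integral at all the primes above two;
* `z_N` is a unit at one prime above two iff it is so at all of them iff `C_N(ℚ)` is finite and
  `Ш(C_N/ℚ)` has no element of order two iff `N` satisfies the elementary `Criterion N`
  iff `TwoPart N`: `L(C_N, 1) ≠ 0`, `C_N(ℚ)` is finite, the 2-primary part of `Ш(C_N/ℚ)` is zero, `z_N` is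
  a unit at two (the 2-part of the formula);
* THE JOINT LAW. The multipliers are the squarefree `a` with all prime factors `≡ 1 mod 4`; the
  squarefree part `sqf a N` of `a N` is in the class. For every finite set `T` of multipliers and every
  `V ⊆ T`, exactly the proportion `c^#V (1 - c)^(#T - #V)` of the pairs `(u, v)` (ordered by
  `u² + v²`) satisfies `TwoPart (sqf a N)` for `a ∈ V` and not for `a ∈ T \ V`;
  `c = ∏_{i ≥ 0} (1 - 2^{-(2i+1)}) = 0.4194...`; in particular the 2-part of the formula holds for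
  exactly the proportion `c` of the curves `C_N`, for all `C_{sqf a N}`, `a ∈ T`, at the same time for
  exactly `c^#T`, and for at least one of them for exactly `1 - (1 - c)^#T`.

The curves are quartic twists of `y² = x³ - x`, no two of them are quadratic twists of each other, and
`ℚ(i)` is their field of complex multiplication. The joint law is new with respect to
`TwoPartQuarticTwists` (now in `Run7/h555/Kept`).

Proof: the leading term of the central value at a place above two by the values of an elliptic function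
of level `(1 + i)⁶` (`Run7/h555/Q4/Fg` to `S`, `Run7/h135/Q4L1` to `Q4D`); its normalization by the real
period, the lemniscate constant (`Run7/h555/Q4/Z1`, `Z2`); the Tamagawa numbers and the minimality
(`Z3`, `Z4`); the order of the torsion subgroup (`Z5`); the descents over `ℚ`, both directions
(`Run7/h843/Q1` to `Q4`, `S1` to `S6`, `V1` to `V3`); the joint law of the Laplacians of the quadratic
symbols with the weights `2 ^ |S|` (`Run7/h26/QT`, on the base of `Run7/h843/C1` to `C9`,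
`Run7/h428/WA` to `WE`, `Pool/Agent/R413/SM`, `Pool/Agent/Y697/JQ`); the pairs (`Run7/h843/K1`, `K2`,
`Run7/h238`).
-/

set_option autoImplicit false

open NumberField IsDedekindDomain WeierstrassCurve MeasureTheory Filter Topology

namespace Pool.Agent.Results.MP_92892c_nt.QuarticTwistsJointTwoPart

open Pool.Agent.TH841.NF.D (Sha)
open Pool.Agent.TH841.SH.D (Pt)

/-- The curve `y² = x³ + N x`. -/
def C (N : ℕ) : WeierstrassCurve ℤ := ⟨0, 0, 0, N, 0⟩

/-- The curve over `ℚ`. -/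
abbrev E (N : ℕ) : WeierstrassCurve ℚ := (C N).map (Int.castRingHom ℚ)

/-- The equation is minimal at the place `v`: no change of variables over `ℚ` that keeps the
coefficients integral at `v` decreases the order of the discriminant. -/
def MinimalAt (W : WeierstrassCurve ℚ) (v : HeightOneSpectrum (𝓞 ℚ)) : Prop :=
  ∀ C : VariableChange ℚ, v.valuation ℚ (C • W).a₁ ≤ 1 → v.valuation ℚ (C • W).a₂ ≤ 1 →
    v.valuation ℚ (C • W).a₃ ≤ 1 → v.valuation ℚ (C • W).a₄ ≤ 1 → v.valuation ℚ (C • W).a₆ ≤ 1 →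
    v.valuation ℚ (C • W).Δ ≤ v.valuation ℚ W.Δ

/-- `W⁰(ℚ_v)`, the group of the points of `W` over the completion `ℚ_v` with nonsingular reduction:
the point at infinity and the points `(x, y)` where `x` is not integral, or one of the partial
derivatives of `y² + a₁ x y + a₃ y - x³ - a₂ x² - a₄ x - a₆` is a unit at `(x, y)`.
Here `Pt W ℚ_v` is the group of the points of `W` over `ℚ_v`. -/
noncomputable def nonsing (W : WeierstrassCurve ℚ) (v : HeightOneSpectrum (𝓞 ℚ)) :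
    AddSubgroup (Pt W (v.adicCompletion ℚ)) :=
  AddSubgroup.closure {P | ∀ x y h, P = Affine.Point.some x y h →
    1 < Valued.v x ∨
    Valued.v ((W.baseChange (v.adicCompletion ℚ)).a₁ * y -
      (3 * x ^ 2 + 2 * (W.baseChange (v.adicCompletion ℚ)).a₂ * x +
        (W.baseChange (v.adicCompletion ℚ)).a₄)) = 1 ∨
    Valued.v (2 * y + (W.baseChange (v.adicCompletion ℚ)).a₁ * x +
      (W.baseChange (v.adicCompletion ℚ)).a₃) = 1}

/-- The Tamagawa number `c_v = [W(ℚ_v) : W⁰(ℚ_v)]` of a minimal equation. -/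
noncomputable def c (W : WeierstrassCurve ℚ) (v : HeightOneSpectrum (𝓞 ℚ)) : ℕ :=
  (nonsing W v).index

/-- The product of the Tamagawa numbers. -/
noncomputable def Tam (W : WeierstrassCurve ℚ) : ℕ := ∏ᶠ v : HeightOneSpectrum (𝓞 ℚ), c W v

/-- `4 x³ + b₂ x² + 2 b₄ x + b₆ = (2 y + a₁ x + a₃)²`. -/
def cubic (W : WeierstrassCurve ℤ) (x : ℝ) : ℝ := 4 * x ^ 3 + W.b₂ * x ^ 2 + 2 * W.b₄ * x + W.b₆

/-- `Ω = ∫_{W(ℝ)} |ω|` with `ω = dx / (2 y + a₁ x + a₃)`, as an integral over `x`: two real points lie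
over each `x` with `cubic x > 0`. -/
noncomputable def Omega (W : WeierstrassCurve ℤ) : ℝ :=
  2 * ∫ x in {x : ℝ | 0 < cubic W x}, 1 / √(cubic W x)

open Classical in
/-- The order of the torsion subgroup of `W(K)`. -/
noncomputable def torsOrder {K : Type} [Field K] (W : WeierstrassCurve K) : ℕ :=
  Nat.card (AddCommGroup.torsion W.toAffine.Point)

/-- The order of the Tate-Shafarevich group predicted by the formula, for the value `l` of the
L-function of `C_N` at `s = 1`: `#C_N(ℚ)_tors² l / (Ω ∏ c_v)`. -/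
noncomputable def anOrder (N : ℕ) (l : ℂ) : ℂ :=
  l * (torsOrder (E N) : ℂ) ^ 2 / ((Omega (C N) : ℝ) * (Tam (E N) : ℂ))

open Classical in
/-- `F` is the L-function of `y² = x³ + N x`, `N` even: it is entire, and it is the Euler product over
the primes `p ∤ N` (the primes of good reduction) for `Re s > 3/2`. The reduction at the prime divisors of
an even squarefree number `N` is additive, so that their Euler factors are `1`. -/
def IsLFun (N : ℕ) (F : ℂ → ℂ) : Prop :=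
  Differentiable ℂ F ∧ ∀ s : ℂ, (3 : ℝ) / 2 < s.re →
    HasProd
      (fun p : ℕ => if p.Prime ∧ ¬ p ∣ N then
        (1 - ((p : ℂ) - (Nat.card {q : ZMod p × ZMod p // q.2 ^ 2 = q.1 ^ 3 + (N : ZMod p) * q.1} : ℂ))
          * (p : ℂ) ^ (-s) + (p : ℂ) ^ (1 - 2 * s))⁻¹
      else 1) (F s)

/-- The criterion for the squarefree number `N`: if `2 d e = N`, `2 e` is a square modulo each prime
divisor of `d` and `d` is a square modulo each prime divisor of `e`, then `d = 1`. -/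
def Criterion (N : ℕ) : Prop := ∀ d e : ℕ, 2 * (d * e) = N →
  (∀ p : ℕ, p.Prime → p ∣ d → IsSquare ((2 * e : ℕ) : ZMod p)) →
  (∀ p : ℕ, p.Prime → p ∣ e → IsSquare ((d : ℕ) : ZMod p)) → d = 1

/-- The 2-part of the conjecture, in the case that `z` is a unit at two: the L-function `F` of `C_N` is
entire with `F 1 ≠ 0`, `C_N(ℚ)` is finite, the 2-primary part of `Ш` is zero, and the predicted order of
`Ш` is a unit at all the primes above two. -/
def TwoPart (N : ℕ) : Prop :=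
  Finite (E N).toAffine.Point ∧ (∀ (n : ℕ) (x : Sha (E N)), 2 ^ n • x = 0 → x = 0) ∧
    ∃ F : ℂ → ℂ, IsLFun N F ∧ F 1 ≠ 0 ∧
      ∃ m : ℤ, Odd m ∧ _root_.IsIntegral ℤ (m * anOrder N (F 1)) ∧
        _root_.IsIntegral ℤ (m * (anOrder N (F 1))⁻¹)

/-- the number of the pairs `(u, v)` of odd integers with squarefree `u² + v² ≤ X` such that
`u² + v²` has the property `Q` -/
noncomputable def num (Q : ℕ → Prop) (X : ℕ) : ℕ :=
  Nat.card {v : ℤ × ℤ // Odd v.1 ∧ Odd v.2 ∧ v.1 ^ 2 + v.2 ^ 2 ≤ (X : ℤ) ∧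
    Squarefree (v.1 ^ 2 + v.2 ^ 2) ∧ Q (v.1 ^ 2 + v.2 ^ 2).toNat}

/-- the constant `0.4194...` -/
noncomputable def c2 : ℝ := ∏' i : ℕ, (1 - (1 / 2 : ℝ) ^ (2 * i + 1))

/-- the class: squarefree sums of two odd squares -/
def Cls (N : ℕ) : Prop :=
  Squarefree N ∧ ∃ u v : ℤ, Odd u ∧ Odd v ∧ (N : ℤ) = u ^ 2 + v ^ 2

/-- the multipliers: squarefree numbers with all prime factors `≡ 1 mod 4` -/
def Mult (a : ℕ) : Prop := Squarefree a ∧ ∀ p : ℕ, p.Prime → p ∣ a → p % 4 = 1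

/-- the squarefree part of `a N`, for squarefree `a` and `N` -/
def sqf (a N : ℕ) : ℕ := a * N / Nat.gcd a N ^ 2

section proof

open Run7.h238.Pairs Run7.h843.Fin Run7.h843.Sqf
open Run7.h843.Cnt (Gd6)
open Run7.h26.QT (QJ6 am)
open Pool.Agent.Results.MP_4a9ea6_nt.TwoPartTwistsX49 (Adm)
open Pool.Agent.R413.SQ.Joint (tw tw_pf adm_tw ac_tw)

lemma isL_of {m : ℕ} {F : ℂ → ℂ} (h : Pool.Agent.Y19.QT.IsLFun (2 * (m : ℤ)) 0 F) :
    IsLFun (2 * m) F := by
  refine ⟨h.1, fun s hs => ?_⟩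
  refine (h.2 s hs).congr_fun fun p => ?_
  by_cases hpp : p.Prime
  · have e : (p : ℤ) ∣ 2 * (-4 * (2 * (m : ℤ)) ^ 3 - 27 * 0 ^ 2) ↔ p ∣ 2 * m := by
      have e1 : (2 * (-4 * (2 * (m : ℤ)) ^ 3 - 27 * 0 ^ 2) : ℤ) = -((2 ^ 6 * m ^ 3 : ℕ) : ℤ) := by
        push_cast; ring
      rw [e1, dvd_neg, Int.natCast_dvd_natCast, Nat.Prime.dvd_mul hpp, Nat.Prime.dvd_mul hpp]
      constructor
      · rintro (h | h)
        · exact Or.inl (hpp.dvd_of_dvd_pow h)
        · exact Or.inr (hpp.dvd_of_dvd_pow h)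
      · rintro (h | h)
        · exact Or.inl (dvd_pow h (by norm_num))
        · exact Or.inr (dvd_pow h (by norm_num))
    by_cases hb : p ∣ 2 * m
    · rw [if_neg (fun h => h.2 hb), if_neg (fun h => h.2 (e.2 hb))]
    · rw [if_pos ⟨hpp, hb⟩, if_pos ⟨hpp, fun h => hb (e.1 h)⟩]
      have e2 : {q : ZMod p × ZMod p // q.2 ^ 2 = q.1 ^ 3 + ((2 * m : ℕ) : ZMod p) * q.1} =
          {q : ZMod p × ZMod p // q.2 ^ 2 = q.1 ^ 3 + ((2 * (m : ℤ) : ℤ) : ZMod p) * q.1 +
            ((0 : ℤ) : ZMod p)} := by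
        congr 1
        funext q
        push_cast
        rw [add_zero]
      rw [e2]
  · rw [if_neg (fun h => hpp h.1), if_neg (fun h => hpp h.1)]

theorem core {m : ℕ} (hm : Squarefree m) (h1 : ∀ p ∈ m.primeFactors, p % 4 = 1) (hodd : m % 2 = 1)
    (hN : Squarefree (2 * m)) :
    ((Finite (E (2 * m)).toAffine.Point ∧ ∀ x : Sha (E (2 * m)), x + x = 0 → x = 0) ↔
      Run7.h843.Desc.Nsg m) ∧
    (TwoPart (2 * m) ↔ Run7.h843.Desc.Nsg m) ∧
    ∃ F : ℂ → ℂ, IsLFun (2 * m) F ∧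
      (∃ k : ℤ, Odd k ∧ _root_.IsIntegral ℤ (k * anOrder (2 * m) (F 1))) ∧
      ∀ (Γ : Type) [LinearOrderedCommGroupWithZero Γ] (v : Valuation ℂ Γ), v 2 < 1 →
        v (anOrder (2 * m) (F 1)) ≤ 1 ∧ (v (anOrder (2 * m) (F 1)) = 1 ↔ Run7.h843.Desc.Nsg m) := by
  obtain ⟨F, hF, hval⟩ := Run7.h555.Tam.value hm h1 hodd hN
  have hW : E (2 * m) = ⟨0, 0, 0, ((2 * (m : ℤ) : ℤ) : ℚ), ((0 : ℤ) : ℚ)⟩ := by
    have e := Run7.h555.Tam.E_eq (2 * m)
    have e2 : E (2 * m) = Run7.h555.Tam.E (2 * m) := rfl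
    rw [e2, e]
    push_cast
    rfl
  have hiff := Run7.h843.Conv.iffC hm h1 hW
  have hL := isL_of hF
  have hv : ∀ (Γ : Type) [LinearOrderedCommGroupWithZero Γ] (v : Valuation ℂ Γ), v 2 < 1 →
        v (anOrder (2 * m) (F 1)) ≤ 1 ∧ (v (anOrder (2 * m) (F 1)) = 1 ↔ Run7.h843.Desc.Nsg m) := hval
  refine ⟨⟨fun h => ?_, fun h => ⟨(hiff.2 h).1, fun x hx => (hiff.2 h).2 1 x (by
      rw [pow_one, two_nsmul]; exact hx)⟩⟩, ⟨fun h => hiff.1 ⟨h.1, h.2.1⟩, fun h => ?_⟩, F, hL,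
    Pool.Agent.Y698.int_of_val fun Γ _ v h2 => (hv Γ v h2).1, hv⟩
  · have hW2 : E (2 * m) = Pool.Agent.Y698.SG.Cv.WF ℚ 0 (2 * m) := by
      rw [hW]
      unfold Pool.Agent.Y698.SG.Cv.WF Pool.Agent.Y668.Wt
      simp
    rw [hW2] at h
    exact Run7.h843.Conv.convC hm h1 h.1 h.2
  · have hz : ∀ (Γ : Type) [LinearOrderedCommGroupWithZero Γ] (v : Valuation ℂ Γ), v 2 < 1 →
        v (anOrder (2 * m) (F 1)) = 1 := fun Γ _ v h2 => (hv Γ v h2).2.2 h
    refine ⟨(hiff.2 h).1, (hiff.2 h).2, F, hL, ?_, ?_⟩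
    · intro h0
      obtain ⟨B, hB⟩ := Pool.Agent.Y699.exists_val
      have h5 := hz B.ValueGroup B.valuation hB
      unfold anOrder at h5
      rw [h0, zero_mul, zero_div, map_zero] at h5
      exact zero_ne_one h5
    · obtain ⟨m₁, hm₁, i₁⟩ := Pool.Agent.Y698.int_of_val
        (x := anOrder (2 * m) (F 1)) fun Γ _ v h2 => (hz Γ v h2).le
      obtain ⟨m₂, hm₂, i₂⟩ := Pool.Agent.Y698.int_of_val
        (x := (anOrder (2 * m) (F 1))⁻¹) fun Γ _ v h2 => by
          rw [map_inv₀, hz Γ v h2, inv_one]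
      refine ⟨m₁ * m₂, hm₁.mul hm₂, ?_, ?_⟩
      · have e : ((m₁ * m₂ : ℤ) : ℂ) * anOrder (2 * m) (F 1) =
            (m₂ : ℂ) * ((m₁ : ℂ) * anOrder (2 * m) (F 1)) := by
          push_cast; ring
        rw [e]
        exact IsIntegral.mul (isIntegral_algebraMap (R := ℤ) (A := ℂ) (x := m₂)) i₁
      · have e : ((m₁ * m₂ : ℤ) : ℂ) * (anOrder (2 * m) (F 1))⁻¹ =
            (m₁ : ℂ) * ((m₂ : ℂ) * (anOrder (2 * m) (F 1))⁻¹) := by
          push_cast; ring
        rw [e]
        exact IsIntegral.mul (isIntegral_algebraMap (R := ℤ) (A := ℂ) (x := m₁)) i₂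

/-- squarefree numbers with prime factors `1 mod 4` -/
theorem adm_mult {a : ℕ} : Mult a ↔ Adm a := by
  unfold Mult Adm
  refine and_congr_right fun h => ?_
  constructor
  · intro h1 p hp
    exact h1 p (Nat.prime_of_mem_primeFactors hp) (Nat.dvd_of_mem_primeFactors hp)
  · intro h1 p hp hpa
    exact h1 p (Nat.mem_primeFactors.2 ⟨hp, hpa, h.ne_zero⟩)

theorem adm_odd {m : ℕ} (h : Adm m) : m % 2 = 1 := by
  rcases Nat.mod_two_eq_zero_or_one m with h0 | h0
  · exfalso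
    have := h.2 2 (Nat.mem_primeFactors.2 ⟨Nat.prime_two, Nat.dvd_of_mod_eq_zero h0, h.1.ne_zero⟩)
    omega
  · exact h0

/-- the class in terms of the half -/
theorem cls_half {N : ℕ} (h : Cls N) : ∃ m : ℕ, Adm m ∧ N = 2 * m := by
  obtain ⟨hs, u, v, hu, hv, hN⟩ := h
  have h1 : N = nm (u, v) := by
    have := Run7.h238.Half.nm_int (u, v)
    simp only at this
    have h2 : (N : ℤ) = (nm (u, v) : ℤ) := by rw [this, hN]
    exact_mod_cast h2
  have hs' : Squarefree (nm (u, v)) := h1 ▸ hs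
  obtain ⟨w, h2, h3, h3s⟩ := Run7.h843.T8.half_data (v := (u, v)) hu hv hs'
  exact ⟨nm w, ⟨h3s, QX_pf h3 h3s⟩, by rw [h1, h2]⟩

/-- `2 m` is a sum of two odd squares -/
theorem half_cls {m : ℕ} (h : Adm m) : Cls (2 * m) := by
  have ho := adm_odd h
  refine ⟨?_, ?_⟩
  · rw [Nat.squarefree_mul_iff]
    exact ⟨Nat.coprime_two_left.2 (Nat.odd_iff.2 ho), Nat.prime_two.squarefree, h.1⟩
  · have h1 : ∃ x y : ℕ, 2 * m = x ^ 2 + y ^ 2 := by
      apply Nat.eq_sq_add_sq_iff.2
      intro q hq hq3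
      exfalso
      have hqp := Nat.prime_of_mem_primeFactors hq
      have hqd := Nat.dvd_of_mem_primeFactors hq
      rcases (Nat.Prime.dvd_mul hqp).1 hqd with h2 | h2
      · have := (Nat.prime_dvd_prime_iff_eq hqp Nat.prime_two).1 h2
        omega
      · have := h.2 q (Nat.mem_primeFactors.2 ⟨hqp, h2, h.1.ne_zero⟩)
        omega
    obtain ⟨x, y, hxy⟩ := h1
    have hx : x % 2 = 1 ∧ y % 2 = 1 := by
      have e1 : x ^ 2 % 4 = if x % 2 = 0 then 0 else 1 := by
        rcases Nat.mod_two_eq_zero_or_one x with h0 | h0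
        · rw [if_pos h0]
          obtain ⟨k, hk⟩ : ∃ k, x = 2 * k := ⟨x / 2, by omega⟩
          rw [hk]
          have : (2 * k) ^ 2 = 4 * k ^ 2 := by ring
          omega
        · rw [if_neg (by omega)]
          obtain ⟨k, hk⟩ : ∃ k, x = 2 * k + 1 := ⟨x / 2, by omega⟩
          rw [hk]
          have : (2 * k + 1) ^ 2 = 4 * (k ^ 2 + k) + 1 := by ring
          omega
      have e2 : y ^ 2 % 4 = if y % 2 = 0 then 0 else 1 := by
        rcases Nat.mod_two_eq_zero_or_one y with h0 | h0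
        · rw [if_pos h0]
          obtain ⟨k, hk⟩ : ∃ k, y = 2 * k := ⟨y / 2, by omega⟩
          rw [hk]
          have : (2 * k) ^ 2 = 4 * k ^ 2 := by ring
          omega
        · rw [if_neg (by omega)]
          obtain ⟨k, hk⟩ : ∃ k, y = 2 * k + 1 := ⟨y / 2, by omega⟩
          rw [hk]
          have : (2 * k + 1) ^ 2 = 4 * (k ^ 2 + k) + 1 := by ring
          omega
      split_ifs at e1 e2 <;> omega
    refine ⟨x, y, ?_, ?_, ?_⟩
    · have : Odd x := Nat.odd_iff.2 hx.1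
      exact_mod_cast this
    · have : Odd y := Nat.odd_iff.2 hx.2
      exact_mod_cast this
    · exact_mod_cast hxy

/-- the criterion in terms of the matrix -/
theorem crit_adm {m : ℕ} (h : Adm m) : Criterion (2 * m) ↔ Run7.h843.Desc.Nsg m := by
  have h0 : Run7.h843.Desc.Nsg m ↔ Cri m := cri_iff h.1 h.2
  rw [h0]
  unfold Criterion Cri
  constructor
  · intro hc d e hde
    exact hc d e (by rw [hde])
  · intro hc d e hde
    exact hc d e (by omega)

theorem adm_sq {m : ℕ} (h : Adm m) : Squarefree (2 * m) := (half_cls h).1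

theorem two_adm {m : ℕ} (h : Adm m) : TwoPart (2 * m) ↔ Gd6 m.primeFactors :=
  (core h.1 h.2 (adm_odd h) (adm_sq h)).2.1

/-- the squarefree part for `N = 2 m` -/
theorem sqf_two {a m : ℕ} (ha : Adm a) : sqf a (2 * m) = 2 * tw a m := by
  have ho := adm_odd ha
  have hg : Nat.gcd a (2 * m) = Nat.gcd a m :=
    Nat.Coprime.gcd_mul_left_cancel_right m (Nat.coprime_two_left.2 (Nat.odd_iff.2 ho))
  unfold sqf tw
  rw [hg, show a * (2 * m) = 2 * (a * m) by ring]
  refine Nat.mul_div_assoc 2 ?_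
  rw [sq]
  exact Nat.mul_dvd_mul (Nat.gcd_dvd_left a m) (Nat.gcd_dvd_right a m)

theorem two_sqf {a m : ℕ} (ha : Adm a) (hm : Adm m) :
    TwoPart (sqf a (2 * m)) ↔ Gd6 (symmDiff m.primeFactors a.primeFactors) := by
  rw [sqf_two ha, two_adm (adm_tw ha hm), tw_pf ha hm]

/-- the numbers of pairs -/
theorem num_QX (Q : ℕ → Prop) (X : ℕ) :
    num Q X = (open Classical in ((QX (X / 2)).filter fun v => Q (2 * nm v)).card) := by
  have h1 : num Q X = Run7.h843.T8.num Q X := rfl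
  rw [h1, Run7.h843.T8.num_eq, WX_card]

theorem adm_QX {X : ℕ} {v : ℤ × ℤ} (hv : v ∈ QX X) : Adm (nm v) := by
  unfold QX at hv
  rw [Finset.mem_filter] at hv
  exact ⟨hv.2.2, QX_pf hv.2.1 hv.2.2⟩

theorem injT {T : Finset ℕ} (hT : ∀ t ∈ T, Adm t) : Set.InjOn Nat.primeFactors (T : Set ℕ) := by
  intro m hm n hn hmn
  rw [← Nat.prod_primeFactors_of_squarefree (hT m hm).1,
    ← Nat.prod_primeFactors_of_squarefree (hT n hn).1, hmn]

/-- **the joint law** -/
theorem joint (h : QJ6) {T V : Finset ℕ} (hT : ∀ a ∈ T, Mult a) (hV : V ⊆ T) :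
    Tendsto (fun X : ℕ => (num (fun N => ∀ a ∈ T, (TwoPart (sqf a N) ↔ a ∈ V)) X : ℝ) /
      (num (fun _ => True) X : ℝ)) atTop (𝓝 (c2 ^ V.card * (1 - c2) ^ (T.card - V.card))) := by
  classical
  have hT' : ∀ a ∈ T, Adm a := fun a ha => adm_mult.1 (hT a ha)
  have hinj := injT hT'
  have h1 := h (V.image Nat.primeFactors) ((T \ V).image Nat.primeFactors)
    (by
      intro U hU
      rcases Finset.mem_union.1 hU with hU | hU
      · obtain ⟨a, ha, rfl⟩ := Finset.mem_image.1 hU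
        exact fun p hp => ⟨Nat.prime_of_mem_primeFactors hp, (hT' a (hV ha)).2 p hp⟩
      · obtain ⟨a, ha, rfl⟩ := Finset.mem_image.1 hU
        exact fun p hp => ⟨Nat.prime_of_mem_primeFactors hp,
          (hT' a (Finset.mem_sdiff.1 ha).1).2 p hp⟩)
    (by
      rw [Finset.disjoint_left]
      intro U hU hU'
      obtain ⟨a, ha, rfl⟩ := Finset.mem_image.1 hU
      obtain ⟨b, hb, hab⟩ := Finset.mem_image.1 hU'
      rw [Finset.mem_sdiff] at hb
      exact hb.2 (hinj hb.1 (hV ha) hab ▸ ha))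
  have e1 : (V.image Nat.primeFactors).card = V.card :=
    Finset.card_image_of_injOn (hinj.mono (by exact_mod_cast hV))
  have e2 : ((T \ V).image Nat.primeFactors).card = T.card - V.card := by
    rw [Finset.card_image_of_injOn (hinj.mono (by
      intro x hx
      exact (Finset.mem_sdiff.1 (Finset.mem_coe.1 hx)).1)), Finset.card_sdiff_of_subset hV]
  rw [e1, e2] at h1
  have hdiv : Tendsto (fun X : ℕ => X / 2) atTop atTop := Nat.tendsto_div_const_atTop two_ne_zero
  have h2 := h1.comp hdiv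
  have hcc : Pool.Agent.Y703.CQ.c2 = c2 := rfl
  rw [hcc] at h2
  refine h2.congr fun X => ?_
  simp only [Function.comp]
  rw [num_QX, num_QX]
  congr 1
  · norm_cast
    congr 1
    ext v
    simp only [Finset.mem_filter]
    refine and_congr_right fun hv => ?_
    have hm := adm_QX hv
    constructor
    · rintro ⟨h3, h4⟩ a ha
      rw [two_sqf (hT' a ha) hm]
      constructor
      · intro h5
        by_contra hc
        exact h4 _ (Finset.mem_image_of_mem _ (Finset.mem_sdiff.2 ⟨ha, hc⟩)) h5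
      · intro h5
        exact h3 _ (Finset.mem_image_of_mem _ h5)
    · intro h3
      constructor
      · intro U hU
        obtain ⟨a, ha, rfl⟩ := Finset.mem_image.1 hU
        exact (two_sqf (hT' a (hV ha)) hm).1 ((h3 a (hV ha)).2 ha)
      · intro U hU hG
        obtain ⟨a, ha, rfl⟩ := Finset.mem_image.1 hU
        rw [Finset.mem_sdiff] at ha
        exact ha.2 ((h3 a ha.1).1 ((two_sqf (hT' a ha.1) hm).2 hG))
  · norm_cast
    congr 1
    simp

theorem num_not (Q : ℕ → Prop) (X : ℕ) :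
    num Q X + num (fun N => ¬ Q N) X = num (fun _ => True) X := by
  classical
  rw [num_QX, num_QX, num_QX]
  rw [Finset.filter_true]
  convert Finset.card_filter_add_card_filter_not (s := QX (X / 2)) (fun v => Q (2 * nm v)) using 2
  congr 1
  ext v
  simp only [Finset.mem_filter]

theorem jall (h : QJ6) {T : Finset ℕ} (hT : ∀ a ∈ T, Mult a) :
    Tendsto (fun X : ℕ => (num (fun N => ∀ a ∈ T, TwoPart (sqf a N)) X : ℝ) /
      (num (fun _ => True) X : ℝ)) atTop (𝓝 (c2 ^ T.card)) := by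
  have h1 := joint h hT (Finset.Subset.refl T)
  rw [Nat.sub_self, pow_zero, mul_one] at h1
  refine h1.congr fun X => ?_
  have e : (fun N => ∀ a ∈ T, (TwoPart (sqf a N) ↔ a ∈ T)) = fun N => ∀ a ∈ T, TwoPart (sqf a N) := by
    funext N
    refine propext ⟨fun h a ha => (h a ha).2 ha, fun h a ha => ⟨fun _ => ha, fun _ => h a ha⟩⟩
  rw [e]

theorem jsome (h : QJ6) {T : Finset ℕ} (hT : ∀ a ∈ T, Mult a) :
    Tendsto (fun X : ℕ => (num (fun N => ∃ a ∈ T, TwoPart (sqf a N)) X : ℝ) /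
      (num (fun _ => True) X : ℝ)) atTop (𝓝 (1 - (1 - c2) ^ T.card)) := by
  have h1 := joint h hT (Finset.empty_subset T)
  rw [Finset.card_empty, pow_zero, one_mul, Nat.sub_zero] at h1
  have hpos : ∀ᶠ X : ℕ in atTop, (0 : ℝ) < (num (fun _ => True) X : ℝ) := by
    obtain ⟨a, ha, h⟩ := (Run7.h843.T8.main Pool.Agent.Run7.h135.Q4L.ana4).2.2.2.2.1
    filter_upwards [h, eventually_ge_atTop 1] with X h1 h2
    have h3 : (0 : ℝ) < X := by exact_mod_cast h2
    have h4 : a * X ≤ (num (fun _ => True) X : ℝ) := h1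
    exact lt_of_lt_of_le (mul_pos ha h3) h4
  refine (h1.const_sub 1).congr' ?_
  filter_upwards [hpos] with X hX
  have e : (fun N => ∀ a ∈ T, (TwoPart (sqf a N) ↔ a ∈ (∅ : Finset ℕ))) =
      fun N => ¬ ∃ a ∈ T, TwoPart (sqf a N) := by
    funext N
    refine propext ⟨fun h => ?_, fun h a ha => ?_⟩
    · rintro ⟨a, ha, h2⟩
      exact absurd ((h a ha).1 h2) (Finset.notMem_empty a)
    · exact ⟨fun h2 => absurd ⟨a, ha, h2⟩ h, fun h2 => absurd h2 (Finset.notMem_empty a)⟩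
  rw [e]
  have h2 := num_not (fun N => ∃ a ∈ T, TwoPart (sqf a N)) X
  have h3 : ((num (fun N => ∃ a ∈ T, TwoPart (sqf a N)) X : ℕ) : ℝ) +
      ((num (fun N => ¬ ∃ a ∈ T, TwoPart (sqf a N)) X : ℕ) : ℝ) =
      ((num (fun _ => True) X : ℕ) : ℝ) := by exact_mod_cast h2
  rw [eq_div_iff hX.ne', sub_mul, one_mul, div_mul_cancel₀ _ hX.ne']
  linarith

theorem cls_sqf {a N : ℕ} (ha : Mult a) (hN : Cls N) :
    Cls (sqf a N) ∧ a * N = sqf a N * Nat.gcd a N ^ 2 := by
  obtain ⟨m, hm, rfl⟩ := cls_half hN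
  have ha' := adm_mult.1 ha
  have ho := adm_odd ha'
  have hg : Nat.gcd a (2 * m) = Nat.gcd a m :=
    Nat.Coprime.gcd_mul_left_cancel_right m (Nat.coprime_two_left.2 (Nat.odd_iff.2 ho))
  rw [sqf_two ha', hg]
  refine ⟨half_cls (adm_tw ha' hm), ?_⟩
  have h1 := (ac_tw ha' hm).2
  calc a * (2 * m) = 2 * (a * m) := by ring
    _ = 2 * (tw a m * Nat.gcd a m ^ 2) := by rw [← h1]
    _ = _ := by ring

theorem qj : QJ6 :=
  Run7.h26.QT.qj6 (Run7.h26.QT.t_KEY6 (Run7.h26.QT.t_BX6 Run7.h26.QT.t_GDM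
    Pool.Agent.Y356.CQ.t_EQ Pool.Agent.Y697.JQ.t_JLA)) Run7.h26.QT.t_BAD6

end proof

/-- **The 2-part of the leading-term formula of Birch and Swinnerton-Dyer for the quartic twists
`y² = x³ + (u² + v²) x`: the joint law.** -/
theorem result :
    (∀ N : ℕ, Cls N →
      (∀ w : HeightOneSpectrum (𝓞 ℚ), MinimalAt (E N) w) ∧
      (∃ t : ℕ, Odd t ∧ torsOrder (E N) = 2 * t) ∧
      Tam (E N) = 2 ^ N.primeFactors.card ∧
      ((Finite (E N).toAffine.Point ∧ ∀ x : Sha (E N), x + x = 0 → x = 0) ↔ Criterion N) ∧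
      (TwoPart N ↔ Criterion N) ∧
      ∃ F : ℂ → ℂ, IsLFun N F ∧
        (∃ k : ℤ, Odd k ∧ _root_.IsIntegral ℤ (k * anOrder N (F 1))) ∧
        ∀ (Γ : Type) [LinearOrderedCommGroupWithZero Γ] (v : Valuation ℂ Γ), v 2 < 1 →
          v (anOrder N (F 1)) ≤ 1 ∧ (v (anOrder N (F 1)) = 1 ↔ Criterion N)) ∧
    (∀ a N : ℕ, Mult a → Cls N → Cls (sqf a N) ∧ a * N = sqf a N * Nat.gcd a N ^ 2) ∧
    (∀ T V : Finset ℕ, (∀ a ∈ T, Mult a) → V ⊆ T →
      Tendsto (fun X : ℕ =>
        (num (fun N => ∀ a ∈ T, (TwoPart (sqf a N) ↔ a ∈ V)) X : ℝ) /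
          (num (fun _ => True) X : ℝ)) atTop (𝓝 (c2 ^ V.card * (1 - c2) ^ (T.card - V.card)))) ∧
    (∀ T : Finset ℕ, (∀ a ∈ T, Mult a) →
      Tendsto (fun X : ℕ => (num (fun N => ∀ a ∈ T, TwoPart (sqf a N)) X : ℝ) /
        (num (fun _ => True) X : ℝ)) atTop (𝓝 (c2 ^ T.card)) ∧
      Tendsto (fun X : ℕ => (num (fun N => ∃ a ∈ T, TwoPart (sqf a N)) X : ℝ) /
        (num (fun _ => True) X : ℝ)) atTop (𝓝 (1 - (1 - c2) ^ T.card))) ∧
    0.4194 < c2 ∧ c2 < 0.4195 ∧
    ∃ a : ℝ, 0 < a ∧ ∀ᶠ X : ℕ in atTop, a * X ≤ (num (fun _ => True) X : ℝ) := by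
  obtain ⟨-, -, h3, h4, h5, -⟩ := Run7.h843.T8.main Pool.Agent.Run7.h135.Q4L.ana4
  refine ⟨fun N hN => ?_, fun a N ha hN => ?_, fun T V hT hV => joint qj hT hV,
    fun T hT => ⟨jall qj hT, jsome qj hT⟩, h3, h4, h5⟩
  · obtain ⟨m, hm, rfl⟩ := cls_half hN
    rw [crit_adm hm]
    obtain ⟨k1, k2, k3⟩ := core hm.1 hm.2 (adm_odd hm) (adm_sq hm)
    have hd : 2 ∣ 2 * m := Dvd.intro m rfl
    refine ⟨fun w => Run7.h555.Tam.minimal w (adm_sq hm) hd, Run7.h555.Tam.tors_eq (adm_sq hm) ?_,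
      Run7.h555.Tam.tam_eq (adm_sq hm) hd, k1, k2, k3⟩
    have := Nat.pos_of_ne_zero hm.1.ne_zero
    omega
  · exact cls_sqf ha hN

end Pool.Agent.Results.MP_92892c_nt.QuarticTwistsJointTwoPart
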