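import Pool.Agent.Run7.h555.C12.V1
import Pool.Agent.Run7.h843.R11
import Pool.Agent.Run7.h741.S8.Fin

/-!
# The 2-part of the leading-term formula of Birch and Swinnerton-Dyer for the quadratic twists of the
# curve with complex multiplication by `ℤ[√-2]`

Let `m` be a squarefree number whose prime factors are `1`, `3` or `5` modulo `8`, let
`C_m : y² = x³ - 4 m x² + 2 m² x` be the quadratic twist by `m` of the curve `y² = x³ - 4 x² + 2 x` of
conductor `256` with complex multiplication by `ℤ[√-2]`, and let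
`z = #C_m(ℚ)_tors² L(C_m, 1) / (Ω ∏ c_p)`, which is zero or the order of `Ш(C_m/ℚ)` according to the
conjecture. With no hypothesis on the rank or on `Ш`:
* `L(C_m, s)` is entire, the equation of `C_m` is minimal, the order of the torsion subgroup is twice an
  odd number, `c_2 = 2`, and for the prime divisors `p` of `m`: `c_p = 4` if `p` is `1` modulo `8`, else
  `c_p = 2`;
* `z` is an algebraic number which is integral at all the primes above two;
* `z` is a unit at one prime above two iff it is so at all of them iff `C_m(ℚ)` is finite and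
  `Ш(C_m/ℚ)` has no element of order two iff a symmetric matrix over `𝔽₂` of quadratic symbols of the
  prime divisors of `m` is nonsingular;
* in this case `L(C_m, 1) ≠ 0` and the 2-primary part of `Ш(C_m/ℚ)` is zero: the 2-part of the formula;
* the proportion of the `m ≤ X` for which this happens tends to `∏_{i ≥ 0} (1 - 2^{-(2i+1)}) = 0.4194...`.

Proof: the L-function, with all its Euler factors, by the Hecke characters of `ℤ[√-2]` and explicit
character sums (`Run7/h555/PC`, `C11`, `C12/L1`, `Run7/h26/S2`); the leading term of the central value at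
a place above two by the values of elliptic functions (`Run7/h135/R2*`); its normalization by the real
period (`Run7/h555/C12/P1` to `P3`); the Tamagawa numbers and the minimality (`C12/T1` to `T3`), the
torsion (`C12/T4`), the determinant (`C12/T6`, `V1`); the descents over `ℚ`, both directions
(`Run7/h843/R1` to `R11`); the count (`Run7/h741/S8`).
-/

set_option autoImplicit false

open NumberField IsDedekindDomain WeierstrassCurve MeasureTheory Filter Topology

namespace Pool.Agent.Results.MP_92892c_nt.TwoPartTwistsSqrtNegTwo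

open Pool.Agent.TH841.NF.D (Sha)
open Pool.Agent.TH841.SH.D (Pt)

/-- The curve `y² = x³ - 4 m x² + 2 m² x`. -/
def C (m : ℕ) : WeierstrassCurve ℤ := ⟨0, -4 * m, 0, 2 * m ^ 2, 0⟩

/-- The curve over `ℚ`. -/
abbrev E (m : ℕ) : WeierstrassCurve ℚ := (C m).map (Int.castRingHom ℚ)

/-- The equation is minimal at the place `v`: no change of variables over `ℚ` that keeps the
coefficients integral at `v` decreases the order of the discriminant. -/
def MinimalAt (W : WeierstrassCurve ℚ) (v : HeightOneSpectrum (𝓞 ℚ)) : Prop :=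
  ∀ C : VariableChange ℚ, v.valuation ℚ (C • W).a₁ ≤ 1 → v.valuation ℚ (C • W).a₂ ≤ 1 →
    v.valuation ℚ (C • W).a₃ ≤ 1 → v.valuation ℚ (C • W).a₄ ≤ 1 → v.valuation ℚ (C • W).a₆ ≤ 1 →
    v.valuation ℚ (C • W).Δ ≤ v.valuation ℚ W.Δ

/-- `W⁰(ℚ_v)`, the group of the points of `W` over the completion `ℚ_v` with nonsingular reduction:
the point at infinity and the points `(x, y)` where `x` is not integral, or one of the partial
derivatives of `y² + a₁ x y + a₃ y - x³ - a₂ x² - a₄ x - a₆` is a unit at `(x, y)`.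
Here `Pt W ℚ_v` is the group of the points of `W` over `ℚ_v`. -/
noncomputable def nonsing (W : WeierstrassCurve ℚ) (v : HeightOneSpectrum (𝓞 ℚ)) :
    AddSubgroup (Pt W (v.adicCompletion ℚ)) :=
  AddSubgroup.closure {P | ∀ x y h, P = Affine.Point.some x y h →
    1 < Valued.v x ∨
    Valued.v ((W.baseChange (v.adicCompletion ℚ)).a₁ * y -
      (3 * x ^ 2 + 2 * (W.baseChange (v.adicCompletion ℚ)).a₂ * x +
        (W.baseChange (v.adicCompletion ℚ)).a₄)) = 1 ∨
    Valued.v (2 * y + (W.baseChange (v.adicCompletion ℚ)).a₁ * x +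
      (W.baseChange (v.adicCompletion ℚ)).a₃) = 1}

/-- The Tamagawa number `c_v = [W(ℚ_v) : W⁰(ℚ_v)]` of a minimal equation. -/
noncomputable def c (W : WeierstrassCurve ℚ) (v : HeightOneSpectrum (𝓞 ℚ)) : ℕ :=
  (nonsing W v).index

/-- The product of the Tamagawa numbers. -/
noncomputable def Tam (W : WeierstrassCurve ℚ) : ℕ := ∏ᶠ v : HeightOneSpectrum (𝓞 ℚ), c W v

/-- `4 x³ + b₂ x² + 2 b₄ x + b₆ = (2 y + a₁ x + a₃)²`. -/
def cubic (W : WeierstrassCurve ℤ) (x : ℝ) : ℝ := 4 * x ^ 3 + W.b₂ * x ^ 2 + 2 * W.b₄ * x + W.b₆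

/-- `Ω = ∫_{W(ℝ)} |ω|` with `ω = dx / (2 y + a₁ x + a₃)`, as an integral over `x`: two real points lie
over each `x` with `cubic x > 0`. -/
noncomputable def Omega (W : WeierstrassCurve ℤ) : ℝ :=
  2 * ∫ x in {x : ℝ | 0 < cubic W x}, 1 / √(cubic W x)

open Classical in
/-- The order of the torsion subgroup of `W(K)`. -/
noncomputable def torsOrder {K : Type} [Field K] (W : WeierstrassCurve K) : ℕ :=
  Nat.card (AddCommGroup.torsion W.toAffine.Point)

/-- The order of the Tate-Shafarevich group predicted by the formula, for the value `l` of the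
L-function of `C_m` at `s = 1`: `#C_m(ℚ)_tors² l / (Ω ∏ c_v)`. -/
noncomputable def anOrder (m : ℕ) (l : ℂ) : ℂ :=
  l * (torsOrder (E m) : ℂ) ^ 2 / ((Omega (C m) : ℝ) * (Tam (E m) : ℂ))

/-- the trace of Frobenius: `p` minus the number of the affine points of `C_m` modulo `p` -/
noncomputable def tr (m p : ℕ) : ℂ :=
  (p : ℂ) - (Nat.card {q : ZMod p × ZMod p //
    q.2 ^ 2 = q.1 ^ 3 - 4 * (m : ZMod p) * q.1 ^ 2 + 2 * (m : ZMod p) ^ 2 * q.1} : ℂ)

/-- `F` is the L-function of `C_m`, `m` odd and squarefree: it is entire, and it is the Euler product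
over the primes `p ∤ 2 m` (the primes of good reduction) for `Re s > 3/2`. The reduction at the prime
divisors of `2 m` is additive, so that their Euler factors are `1`. -/
def IsLFun (m : ℕ) (F : ℂ → ℂ) : Prop :=
  Differentiable ℂ F ∧ ∀ s : ℂ, (3 : ℝ) / 2 < s.re →
    HasProd (fun p : ℕ => if p.Prime ∧ ¬ p ∣ 2 * m then
      (1 - tr m p * (p : ℂ) ^ (-s) + (p : ℂ) ^ (1 - 2 * s))⁻¹ else 1) (F s)

/-- `m` is squarefree and its prime factors are `1`, `3` or `5` modulo `8` -/
def Class (m : ℕ) : Prop :=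
  Squarefree m ∧ ∀ p : ℕ, p.Prime → p ∣ m → p % 8 = 1 ∨ p % 8 = 3 ∨ p % 8 = 5

/-- the prime divisors of `m` which are `1` modulo `8` -/
def S (m : ℕ) : Finset ℕ := m.primeFactors.filter fun p => p % 8 = 1

open Classical in
/-- `1` if `q` is not a square modulo `p`, else `0` -/
noncomputable def nr (p q : ℕ) : ZMod 2 := if IsSquare (q : ZMod p) then 0 else 1

/-- `1` if `p` is `9` modulo `16`, else `0` -/
def f (p : ℕ) : ZMod 2 := if p % 16 = 9 then 1 else 0

/-- The matrix over `𝔽₂`, indexed by the prime divisors `1` modulo `8` of `m`: for `p ≠ q` the entry is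
`1` if `q` is not a square modulo `p`, else `0`; the entry at `p = q` is the number of the prime
divisors `r` of `m` which are not squares modulo `p`, plus `1` if `p` is `9` modulo `16`. -/
noncomputable def M (m : ℕ) : Matrix (S m) (S m) (ZMod 2) := fun p q =>
  if p = q then ∑ r ∈ m.primeFactors, nr p r + f p else nr p q

/-- the criterion -/
def Criterion (m : ℕ) : Prop := (M m).det ≠ 0

/-- The 2-part of the conjecture, in the case that `z` is a unit at two: the L-function `F` of `C_m` is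
entire with `F 1 ≠ 0`, `C_m(ℚ)` is finite, the 2-primary part of `Ш` is zero, and the predicted order of
`Ш` is a unit at all the primes above two. -/
def TwoPart (m : ℕ) : Prop :=
  Finite (E m).toAffine.Point ∧ (∀ (n : ℕ) (x : Sha (E m)), 2 ^ n • x = 0 → x = 0) ∧
    ∃ F : ℂ → ℂ, IsLFun m F ∧ F 1 ≠ 0 ∧
      ∃ k : ℤ, Odd k ∧ _root_.IsIntegral ℤ (k * anOrder m (F 1)) ∧
        _root_.IsIntegral ℤ (k * (anOrder m (F 1))⁻¹)

/-- the number of the `m ≤ X` in the class with the property `Q` -/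
noncomputable def num (Q : ℕ → Prop) (X : ℕ) : ℕ := Nat.card {m : ℕ // m ≤ X ∧ Class m ∧ Q m}

/-- the constant `0.4194...` -/
noncomputable def c2 : ℝ := ∏' i : ℕ, (1 - (1 / 2 : ℝ) ^ (2 * i + 1))

section proof

open Run7.h843.R (MatR SR NsR cv NsR_iff convR iffA)
open Pool.Agent.Run7.h741.S8 (P135)
open Pool.Agent.Y703.CQ (Gd)

theorem class_iff {m : ℕ} : Class m ↔ Squarefree m ∧ P135 m := by
  unfold Class P135
  refine and_congr_right fun hm => ?_
  constructor
  · intro h p hp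
    exact h p (Nat.prime_of_mem_primeFactors hp) (Nat.dvd_of_mem_primeFactors hp)
  · intro h p hp hpm
    exact h p (Nat.mem_primeFactors.2 ⟨hp, hpm, hm.ne_zero⟩)

theorem mem_iff {m : ℕ} (h : Class m) (p : ℕ) : p ∈ S m ↔ p ∈ SR m := by
  unfold S SR
  rw [Finset.mem_filter, Finset.mem_filter]
  refine and_congr_right fun hp => ?_
  have := (class_iff.1 h).2 p hp
  omega

theorem det_eq {m : ℕ} (h : Class m) : (M m).det = (MatR m).det := by
  have e : M m = (MatR m).submatrix (Equiv.subtypeEquivRight (mem_iff h))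
      (Equiv.subtypeEquivRight (mem_iff h)) := by
    refine Matrix.ext fun p q => ?_
    have hp : (p : ℕ) % 8 = 1 := (Finset.mem_filter.1 p.2).2
    have hf : Run7.h843.R.f16 p = f p := by
      unfold Run7.h843.R.f16 f
      refine if_congr ?_ rfl rfl
      omega
    show (if p = q then ∑ r ∈ m.primeFactors, Pool.Agent.Y703.CQ.nr p r + f p
      else Pool.Agent.Y703.CQ.nr p q) = Pool.Agent.Y703.CQ.nr p q +
        if Equiv.subtypeEquivRight (mem_iff h) p = Equiv.subtypeEquivRight (mem_iff h) q then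
          ∑ r ∈ m.primeFactors, Pool.Agent.Y703.CQ.nr p r + Run7.h843.R.f16 p else 0
    by_cases hpq : p = q
    · rw [if_pos hpq, if_pos (by rw [hpq]), ← hpq, Run7.h843.Desc.nr_self, zero_add, hf]
    · rw [if_neg hpq, if_neg (fun h' => hpq ((Equiv.injective _) h')), add_zero]
  rw [e, Matrix.det_submatrix_equiv_self]

theorem ns_iff {m : ℕ} (h : P135 m) (g : ℕ → ZMod 2)
    (hg : ∀ p ∈ m.primeFactors, p % 8 = 1 → g p = Run7.h843.R.f16 p) :
    NsR m ↔ Gd g m.primeFactors := by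
  have h7 : ∀ p ∈ m.primeFactors, (p % 8 = 1 ∨ p % 8 = 7) ↔ p % 8 = 1 := by
    intro p hp
    have := h p hp
    omega
  have hcv : ∀ (x : ℕ → ZMod 2), ∀ q ∈ m.primeFactors, cv x q = Pool.Agent.Y703.CQ.cu x q := by
    intro x q hq
    unfold cv Pool.Agent.Y703.CQ.cu
    by_cases h1 : q % 8 = 1
    · rw [if_pos (Or.inl h1), if_pos h1]
    · rw [if_neg (fun h2 => h1 ((h7 q hq).1 h2)), if_neg h1]
  have hs : ∀ (x : ℕ → ZMod 2) (p : ℕ),
      ∑ q ∈ m.primeFactors, Pool.Agent.Y703.CQ.nr p q * (cv x q + x p) =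
      ∑ q ∈ m.primeFactors, Pool.Agent.Y703.CQ.nr p q * (Pool.Agent.Y703.CQ.cu x q + x p) :=
    fun x p => Finset.sum_congr rfl fun q hq => by rw [hcv x q hq]
  unfold NsR Gd Pool.Agent.Y703.CQ.Sol
  constructor
  · intro h1 x hx p hp hp1
    exact h1 x (fun q hq hq1 => by
      have hq8 := (h7 q hq).1 hq1
      rw [hs, ← hg q hq hq8]; exact hx q hq hq8) p hp (Or.inl hp1)
  · intro h1 x hx p hp hp1
    exact h1 x (fun q hq hq1 => by rw [← hs, hg q hq hq1]; exact hx q hq (Or.inl hq1)) p hp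
      ((h7 p hp).1 hp1)

theorem crit_iff {m : ℕ} (h : Class m) : Criterion m ↔ NsR m := by
  unfold Criterion
  rw [det_eq h]
  exact (NsR_iff m).symm

theorem class_odd {m : ℕ} (h : Class m) : m % 2 = 1 := by
  by_contra h2
  have := h.2 2 Nat.prime_two (by omega)
  omega

theorem core {m : ℕ} (h : Class m) :
    ((Finite (E m).toAffine.Point ∧ ∀ x : Sha (E m), x + x = 0 → x = 0) ↔ Criterion m) ∧
    (TwoPart m ↔ Criterion m) ∧
    ∃ F : ℂ → ℂ, IsLFun m F ∧
      (∃ k : ℤ, Odd k ∧ _root_.IsIntegral ℤ (k * anOrder m (F 1))) ∧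
      ∀ (Γ : Type) [LinearOrderedCommGroupWithZero Γ] (v : Valuation ℂ Γ), v 2 < 1 →
        v (anOrder m (F 1)) ≤ 1 ∧ (v (anOrder m (F 1)) = 1 ↔ Criterion m) := by
  have h2 := class_iff.1 h
  have hm := h2.1
  have hodd := class_odd h
  obtain ⟨F, hF, hval⟩ := Run7.h555.C12.value (m := m) ⟨hm, h2.2⟩
  have hL : IsLFun m F := hF
  have hE : E m = ⟨0, ((-4 * (m : ℤ) : ℤ) : ℚ), 0, ((2 * (m : ℤ) ^ 2 : ℤ) : ℚ), 0⟩ := by
    have e := Run7.h555.C12.E_eq m
    have e2 : E m = Run7.h555.C12.E m := rfl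
    rw [e2, e]
    push_cast
    rfl
  have hiff := iffA hm hodd hE
  rw [← crit_iff h] at hiff
  have hns : Gd Pool.Agent.Run7.h135.R2.f16 m.primeFactors ↔ Criterion m := by
    rw [crit_iff h]
    refine (ns_iff h2.2 _ fun p _ hp8 => ?_).symm
    unfold Pool.Agent.Run7.h135.R2.f16 Run7.h843.R.f16
    refine if_congr ?_ rfl rfl
    omega
  have hv : ∀ (Γ : Type) [LinearOrderedCommGroupWithZero Γ] (v : Valuation ℂ Γ), v 2 < 1 →
        v (anOrder m (F 1)) ≤ 1 ∧ (v (anOrder m (F 1)) = 1 ↔ Criterion m) := by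
    intro Γ _ v hv2
    rw [← hns]
    exact hval Γ v hv2
  refine ⟨⟨fun h3 => ?_, fun h3 => ⟨(hiff.2 h3).1, fun x hx => (hiff.2 h3).2 1 x (by
      rw [pow_one, two_nsmul]; exact hx)⟩⟩, ⟨fun h3 => hiff.1 ⟨h3.1, h3.2.1⟩, fun h3 => ?_⟩, F, hL,
    Pool.Agent.Y698.int_of_val fun Γ _ v h2 => (hv Γ v h2).1, hv⟩
  · have hW2 : E m = Pool.Agent.Y698.SG.Cv.WF ℚ (-4 * m) (2 * m ^ 2) := by
      rw [hE]
      unfold Pool.Agent.Y698.SG.Cv.WF Pool.Agent.Y668.Wt
      simp
    rw [hW2] at h3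
    exact (crit_iff h).2 (convR hm hodd h3.1 h3.2)
  · have hz : ∀ (Γ : Type) [LinearOrderedCommGroupWithZero Γ] (v : Valuation ℂ Γ), v 2 < 1 →
        v (anOrder m (F 1)) = 1 := fun Γ _ v h2 => (hv Γ v h2).2.2 h3
    refine ⟨(hiff.2 h3).1, (hiff.2 h3).2, F, hL, ?_, ?_⟩
    · intro h0
      obtain ⟨B, hB⟩ := Pool.Agent.Y699.exists_val
      have h5 := hz B.ValueGroup B.valuation hB
      unfold anOrder at h5
      rw [h0, zero_mul, zero_div, map_zero] at h5
      exact zero_ne_one h5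
    · obtain ⟨m₁, hm₁, i₁⟩ := Pool.Agent.Y698.int_of_val
        (x := anOrder m (F 1)) fun Γ _ v h2 => (hz Γ v h2).le
      obtain ⟨m₂, hm₂, i₂⟩ := Pool.Agent.Y698.int_of_val
        (x := (anOrder m (F 1))⁻¹) fun Γ _ v h2 => by
          rw [map_inv₀, hz Γ v h2, inv_one]
      refine ⟨m₁ * m₂, hm₁.mul hm₂, ?_, ?_⟩
      · have e : ((m₁ * m₂ : ℤ) : ℂ) * anOrder m (F 1) =
            (m₂ : ℂ) * ((m₁ : ℂ) * anOrder m (F 1)) := by
          push_cast; ring
        rw [e]
        exact IsIntegral.mul (isIntegral_algebraMap (R := ℤ) (A := ℂ) (x := m₂)) i₁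
      · have e : ((m₁ * m₂ : ℤ) : ℂ) * (anOrder m (F 1))⁻¹ =
            (m₁ : ℂ) * ((m₂ : ℂ) * (anOrder m (F 1))⁻¹) := by
          push_cast; ring
        rw [e]
        exact IsIntegral.mul (isIntegral_algebraMap (R := ℤ) (A := ℂ) (x := m₁)) i₂

open Classical in
theorem num_eq {Q Q' : ℕ → Prop} (h : ∀ m, Class m → (Q m ↔ Q' m)) (X : ℕ) :
    num Q X = ((Finset.Icc 1 X).filter fun m => Squarefree m ∧ P135 m ∧ Q' m).card := by
  unfold num
  refine Nat.subtype_card _ fun m => ?_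
  rw [Finset.mem_filter, Finset.mem_Icc]
  constructor
  · rintro ⟨⟨-, h2⟩, h3, h4, h5⟩
    have hc : Class m := class_iff.2 ⟨h3, h4⟩
    exact ⟨h2, hc, (h m hc).2 h5⟩
  · rintro ⟨h2, hc, h5⟩
    have h3 := class_iff.1 hc
    exact ⟨⟨Nat.one_le_iff_ne_zero.2 h3.1.ne_zero, h2⟩, h3.1, h3.2, (h m hc).1 h5⟩

theorem prod_eq {m : ℕ} (h : Class m) :
    ∏ p ∈ m.primeFactors, (if p % 8 = 1 ∨ p % 8 = 7 then 4 else 2) =
      ∏ p ∈ m.primeFactors, (if p % 8 = 1 then 4 else 2) := by
  refine Finset.prod_congr rfl fun p hp => ?_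
  have := (class_iff.1 h).2 p hp
  refine if_congr ?_ rfl rfl
  omega

end proof

/-- **The 2-part of the leading-term formula of Birch and Swinnerton-Dyer for the quadratic twists of
the curve with complex multiplication by `ℤ[√-2]`.** -/
theorem result :
    (∀ m : ℕ, Class m →
      (∀ w : HeightOneSpectrum (𝓞 ℚ), MinimalAt (E m) w) ∧
      (∃ t : ℕ, Odd t ∧ torsOrder (E m) = 2 * t) ∧
      Tam (E m) = 2 * ∏ p ∈ m.primeFactors, (if p % 8 = 1 then 4 else 2) ∧
      ((Finite (E m).toAffine.Point ∧ ∀ x : Sha (E m), x + x = 0 → x = 0) ↔ Criterion m) ∧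
      (TwoPart m ↔ Criterion m) ∧
      ∃ F : ℂ → ℂ, IsLFun m F ∧
        (∃ k : ℤ, Odd k ∧ _root_.IsIntegral ℤ (k * anOrder m (F 1))) ∧
        ∀ (Γ : Type) [LinearOrderedCommGroupWithZero Γ] (v : Valuation ℂ Γ), v 2 < 1 →
          v (anOrder m (F 1)) ≤ 1 ∧ (v (anOrder m (F 1)) = 1 ↔ Criterion m)) ∧
    Tendsto (fun X : ℕ => (num TwoPart X : ℝ) / (num (fun _ => True) X : ℝ)) atTop (𝓝 c2) ∧
    0.4194 < c2 ∧ c2 < 0.4195 ∧
    ∃ a : ℝ, 0 < a ∧ ∀ᶠ X : ℕ in atTop,
      a * X / (Real.log X) ^ (1 / 4 : ℝ) ≤ (num (fun _ => True) X : ℝ) := by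
  classical
  refine ⟨?_, ?_, Pool.Agent.Run7.h741.S8.c2_facts.1, Pool.Agent.Run7.h741.S8.c2_facts.2, ?_⟩
  · intro m hm
    have hodd := class_odd hm
    obtain ⟨k1, k2, k3⟩ := core hm
    refine ⟨fun w => Run7.h555.C12.minimal w hm.1 hodd, Run7.h555.C12.tors_eq hodd, ?_, k1, k2, k3⟩
    rw [← prod_eq hm]
    exact Run7.h555.C12.tam_eq hm.1 hodd
  · refine (Pool.Agent.Run7.h741.S8.t_DEN Run7.h843.R.f16).congr fun X => ?_
    have h1 := num_eq (Q := TwoPart) (Q' := fun m => Pool.Agent.Y703.CQ.Gd Run7.h843.R.f16 m.primeFactors)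
      (fun m hm => by
        rw [(core hm).2.1, crit_iff hm]
        exact ns_iff (class_iff.1 hm).2 _ fun _ _ _ => rfl) X
    have h2 := num_eq (Q := fun _ => True) (Q' := fun _ => True) (fun _ _ => Iff.rfl) X
    rw [h1, h2]
    simp only [and_true]
  · obtain ⟨a, X₀, ha, h⟩ := Pool.Agent.Run7.h741.S8.cls_ge
    refine ⟨a, ha, eventually_atTop.2 ⟨X₀, fun X hX => ?_⟩⟩
    have h2 := num_eq (Q := fun _ => True) (Q' := fun _ => True) (fun _ _ => Iff.rfl) X
    rw [h2]
    simpa only [and_true] using h X hX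

end Pool.Agent.Results.MP_92892c_nt.TwoPartTwistsSqrtNegTwo
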